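import Mathlib
import Pool.Agent.MP_52bf41_ag.H12.Glue
import Pool.Agent.MP_52bf41_ag.H39.Rep
import Pool.Agent.MP_52bf41_ag.H88.Cpl
import Pool.Agent.MP_52bf41_ag.H48.Series
import Pool.Agent.MP_52bf41_ag.H92.Uniq

/-! The stack of prestable three-pointed genus zero curves with unmarked rational tails is
presented by quotients `[X_D / G_D]`; the Chow groups of the mixed quotient schemes
`(X_D × U) / G_D` of Edidin and Graham have a non-rational Hilbert series. -/

namespace Pool.Agent.Results.MP_52bf41_ag.MixedQuotient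

open AlgebraicGeometry CategoryTheory Pool.Agent.MP_52bf41_ag Pool.Agent.MP_52bf41_ag.H1
  Pool.Agent.MP_52bf41_ag.H12 Pool.Agent.MP_52bf41_ag.H92

theorem result :
    ∃ (X : ℕ → Scheme.{0}) (ι : ∀ D, X D ⟶ Spec (.of (MvPolynomial (Var D 0) ℂ))) (h : ℕ → ℕ),
      (∀ D, Presents (ι D)) ∧
      (∀ d D N, d ≤ D → (d + 1) * (D + 1) ≤ N →
        (∃ (P Y : Scheme.{0}) (j : P ⟶ Spec (.of (MvPolynomial (Var D N) ℂ))) (π : P ⟶ Y),
          Mixed (ι D) j π d) ∧
        ∀ (P Y : Scheme.{0}) (j : P ⟶ Spec (.of (MvPolynomial (Var D N) ℂ))) (π : P ⟶ Y),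
          Mixed (ι D) j π d → Module.rank ℚ (CH Y d) = h d) ∧
      (∀ d, h d = Fintype.card (Nat.Partition d)) ∧
      ∀ P Q : Polynomial ℂ, Q ≠ 0 →
        (Q : PowerSeries ℂ) * PowerSeries.mk (fun d => (h d : ℂ)) ≠ (P : PowerSeries ℂ) := by
  choose X ι h using presents_of H39.rep H88.cplA H88.cplB H88.cplC
  refine ⟨X, ι, fun d => Fintype.card (Nat.Partition d), fun D => (h D).1,
    fun d D N hD hN => ?_, fun _ => rfl, H48.partition_not_rational⟩
  have hm := mixed (ι := ι D) (fun p => by rw [(h D).2]; exact comap_mem_tails p) hN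
  exact ⟨⟨_, _, _, _, hm⟩, fun _ _ _ _ h' => (h'.rank_eq hm).trans (rank_CH hD hN)⟩

end Pool.Agent.Results.MP_52bf41_ag.MixedQuotient
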