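import Mathlib
import Pool.Agent.MP_52bf41_ag.H48.Defs
import Pool.Agent.MP_52bf41_ag.H48.Proofs
import Pool.Agent.MP_52bf41_ag.H48.Series

/-! For `n ≥ 3` the locus of curves with one component carrying all markings and unmarked rational
tails is an open union of strata whose Hilbert series (in the Bae-Schmitt presentation) is the
generating function of partitions, which is not a rational function. -/

namespace Pool.Agent.Results.MP_52bf41_ag.RationalTails

open Pool.Agent.MP_52bf41_ag.H48

theorem result (n : ℕ) (hn : 3 ≤ n) :
    IsOpenStrata (tails n) ∧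
    (∀ d, chowRank (tails n) d = (Fintype.card (Nat.Partition d) : ℕ)) ∧
    ∀ P Q : Polynomial ℂ, Q ≠ 0 →
      (Q : PowerSeries ℂ) *
        PowerSeries.mk (fun d => (Cardinal.toNat (chowRank (tails n) d) : ℂ)) ≠
          (P : PowerSeries ℂ) := by
  have key : ∀ d, chowRank (tails n) d = (Fintype.card (Nat.Partition d) : ℕ) := by
    intro d
    obtain ⟨h1, h2⟩ := finrank_chow hn d
    rw [chowRank, ← h2, Module.finrank_eq_rank]
  refine ⟨tails_open, key, fun P Q hQ => ?_⟩
  simp only [key, Cardinal.toNat_natCast]
  exact partition_not_rational P Q hQ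

end Pool.Agent.Results.MP_52bf41_ag.RationalTails
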